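import Mathlib

set_option autoImplicit false

/-! Unions of long intervals without large additive quadruples (for `MP_cc349e_co`). -/

namespace Pool.Agent.NFlat82

/-- `A` is `N`-flat: every additive quadruple lying in `A` has `|h₁| |h₂| ≤ N`. -/
def NFlat (N : ℕ) (A : Finset ℤ) : Prop :=
  ∀ x h₁ h₂ : ℤ, x ∈ A → x + h₁ ∈ A → x + h₂ ∈ A → x + h₁ + h₂ ∈ A → |h₁| * |h₂| ≤ N

/-- It is enough to look at quadruples with `0 ≤ h₁ ≤ h₂`. -/
theorem nflat_of_ordered {N : ℕ} {A : Finset ℤ}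
    (H : ∀ x h₁ h₂ : ℤ, 0 ≤ h₁ → h₁ ≤ h₂ → x ∈ A → x + h₁ ∈ A → x + h₂ ∈ A →
      x + h₁ + h₂ ∈ A → h₁ * h₂ ≤ N) : NFlat N A := by
  -- nonnegative differences
  have H0 : ∀ x h₁ h₂ : ℤ, 0 ≤ h₁ → 0 ≤ h₂ → x ∈ A → x + h₁ ∈ A → x + h₂ ∈ A →
      x + h₁ + h₂ ∈ A → h₁ * h₂ ≤ N := by
    intro x h₁ h₂ p1 p2 a b c d
    rcases le_total h₁ h₂ with h | h
    · exact H x h₁ h₂ p1 h a b c d
    · have := H x h₂ h₁ p2 h a c b (by convert d using 1; ring)
      rw [mul_comm]; exact this
  intro x h₁ h₂ a b c d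
  rcases le_total 0 h₁ with p1 | p1 <;> rcases le_total 0 h₂ with p2 | p2
  · rw [abs_of_nonneg p1, abs_of_nonneg p2]
    exact H0 x h₁ h₂ p1 p2 a b c d
  · rw [abs_of_nonneg p1, abs_of_nonpos p2]
    exact H0 (x + h₂) h₁ (-h₂) p1 (by omega) c (by convert d using 1; ring)
      (by convert a using 1; ring) (by convert b using 1; ring)
  · rw [abs_of_nonpos p1, abs_of_nonneg p2]
    exact H0 (x + h₁) (-h₁) h₂ (by omega) p2 b (by convert a using 1; ring)
      (by convert d using 1; ) (by convert c using 1; ring)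
  · rw [abs_of_nonpos p1, abs_of_nonpos p2]
    exact H0 (x + h₁ + h₂) (-h₁) (-h₂) (by omega) (by omega) d
      (by convert c using 1; ring) (by convert b using 1; ring) (by convert a using 1; ring)

/-! ### Blocks -/

/-- The integers `x` with `s q < x ≤ e q`, the block `(s, e)` blown up by `q`. -/
noncomputable def blk (q : ℕ) (b : ℕ × ℕ) : Finset ℤ :=
  Finset.Ioc ((b.1 * q : ℕ) : ℤ) ((b.2 * q : ℕ) : ℤ)

/-- The union of the blown up blocks of a list. -/
noncomputable def blowup (q : ℕ) (L : List (ℕ × ℕ)) : Finset ℤ :=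
  L.foldr (fun b s => blk q b ∪ s) ∅

theorem mem_blowup {q : ℕ} {L : List (ℕ × ℕ)} {x : ℤ} :
    x ∈ blowup q L ↔ ∃ b ∈ L, x ∈ blk q b := by
  induction L with
  | nil => simp [blowup]
  | cons c l ih =>
    have : blowup q (c :: l) = blk q c ∪ blowup q l := rfl
    rw [this, Finset.mem_union, ih]
    simp

/-- Blocks are listed from left to right. -/
def Sorted (L : List (ℕ × ℕ)) : Prop :=
  L.Pairwise (fun a b => a.2 ≤ b.1) ∧ ∀ b ∈ L, b.1 ≤ b.2

/-- The computable form of sortedness. -/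
def sortB : ℕ → List (ℕ × ℕ) → Bool
  | _, [] => true
  | x, b :: l => Nat.ble x b.1 && Nat.ble b.1 b.2 && sortB b.2 l

theorem sortB_spec {L : List (ℕ × ℕ)} : ∀ {x : ℕ}, sortB x L = true →
    Sorted L ∧ ∀ b ∈ L, x ≤ b.1 := by
  induction L with
  | nil => intro x _; exact ⟨⟨List.Pairwise.nil, by simp⟩, by simp⟩
  | cons c l ih =>
    intro x h
    simp only [sortB, Bool.and_eq_true] at h
    obtain ⟨⟨h1, h2⟩, h3⟩ := h
    have h1 := Nat.le_of_ble_eq_true h1
    have h2 := Nat.le_of_ble_eq_true h2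
    obtain ⟨⟨p1, p2⟩, p3⟩ := ih h3
    refine ⟨⟨List.pairwise_cons.2 ⟨p3, p1⟩, ?_⟩, ?_⟩
    · intro b hb
      rcases List.mem_cons.1 hb with hb | hb
      · rw [hb]; exact h2
      · exact p2 b hb
    · intro b hb
      rcases List.mem_cons.1 hb with hb | hb
      · rw [hb]; exact h1
      · have := p3 b hb; omega

theorem Sorted.tail {c : ℕ × ℕ} {l : List (ℕ × ℕ)} (h : Sorted (c :: l)) : Sorted l :=
  ⟨(List.pairwise_cons.1 h.1).2, fun b hb => h.2 b (List.mem_cons_of_mem _ hb)⟩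

theorem Sorted.head {c : ℕ × ℕ} {l : List (ℕ × ℕ)} (h : Sorted (c :: l)) :
    ∀ b ∈ l, c.2 ≤ b.1 := (List.pairwise_cons.1 h.1).1

/-- Total length. -/
def total : List (ℕ × ℕ) → ℕ
  | [] => 0
  | b :: l => (b.2 - b.1) + total l

theorem card_blowup {q : ℕ} {L : List (ℕ × ℕ)} (hL : Sorted L) :
    (blowup q L).card = total L * q := by
  induction L with
  | nil => simp [blowup, total]
  | cons c l ih =>
    have hc : blowup q (c :: l) = blk q c ∪ blowup q l := rfl
    rw [hc, Finset.card_union_of_disjoint, ih hL.tail]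
    · have hle := hL.2 c (List.mem_cons_self)
      simp only [blk, Int.card_Ioc, total]
      rw [show ((c.2 * q : ℕ) : ℤ) - ((c.1 * q : ℕ) : ℤ) = (((c.2 - c.1) * q : ℕ) : ℤ) by
        push_cast [Nat.cast_sub hle]; ring, Int.toNat_natCast]
      ring
    · rw [Finset.disjoint_left]
      intro x hx hx'
      obtain ⟨b, hb, hxb⟩ := mem_blowup.1 hx'
      have h1 := hL.head b hb
      simp only [blk, Finset.mem_Ioc] at hx hxb
      have h2 : c.2 * q ≤ b.1 * q := Nat.mul_le_mul_right q h1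
      have h3 : ((c.2 * q : ℕ) : ℤ) ≤ ((b.1 * q : ℕ) : ℤ) := by exact_mod_cast h2
      omega

/-! ### The finite check -/

/-- The product test. -/
def prodOk (N H1 H2 D : ℕ) : Bool :=
  Nat.ble (H1 * H2) N || Nat.ble (D * D) (4 * N) ||
    (Nat.ble (2 * H1) D && Nat.ble (H1 * (D - H1)) N)

/-- The range of the differences between the blocks `a` and `b`. -/
def dif (a b : ℕ × ℕ) : ℕ × ℕ := (Nat.sub b.1 a.2, Nat.sub b.2 a.1)

/-- All ranges of differences from `a` to the blocks of a list. -/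
noncomputable def row (a : ℕ × ℕ) (l : List (ℕ × ℕ)) : List (ℕ × ℕ) :=
  @List.rec (ℕ × ℕ) (fun _ => List (ℕ × ℕ)) []
    (fun b _ ih => (Nat.sub b.1 a.2, Nat.sub b.2 a.1) :: ih) l

/-- Merge two lists. -/
noncomputable def merge (l₁ : List (ℕ × ℕ)) : List (ℕ × ℕ) → List (ℕ × ℕ) :=
  @List.rec (ℕ × ℕ) (fun _ => List (ℕ × ℕ) → List (ℕ × ℕ)) (fun l₂ => l₂)
    (fun x xs ihx l₂ => @List.rec (ℕ × ℕ) (fun _ => List (ℕ × ℕ)) (x :: xs)
      (fun y ys ihy => @Bool.rec (fun _ => List (ℕ × ℕ)) (y :: ihy) (x :: ihx (y :: ys))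
        (Nat.ble x.1 y.1)) l₂) l₁

/-- Treat the first `2 ^ k` blocks of a list: pass the merged list of the ranges of differences
starting at these blocks, and the remaining blocks, to `f`. -/
noncomputable def tk (k : ℕ) : List (ℕ × ℕ) → (List (ℕ × ℕ) → List (ℕ × ℕ) → Bool) → Bool :=
  @Nat.rec (fun _ => List (ℕ × ℕ) → (List (ℕ × ℕ) → List (ℕ × ℕ) → Bool) → Bool)
    (fun L f => @List.rec (ℕ × ℕ) (fun _ => Bool) (f [] []) (fun a l _ => f (row a l) l) L)
    (fun _ ih L f => ih L (fun m₁ r₁ => ih r₁ (fun m₂ r₂ => f (merge m₁ m₂) r₂))) k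

/-- Check that a list of ranges follow each other without overlap, each starting at `p` or
later: the next `2 ^ k` steps. The state is the rest of the list and the current bound `p`. -/
noncomputable def step (k : ℕ) : Option (List (ℕ × ℕ) × ℕ) → Option (List (ℕ × ℕ) × ℕ) :=
  @Nat.rec (fun _ => Option (List (ℕ × ℕ) × ℕ) → Option (List (ℕ × ℕ) × ℕ))
    (fun S => @Option.rec (List (ℕ × ℕ) × ℕ) (fun _ => Option (List (ℕ × ℕ) × ℕ)) none
      (fun s => @Prod.rec (List (ℕ × ℕ)) ℕ (fun _ => Option (List (ℕ × ℕ) × ℕ)) (fun M p =>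
        @List.rec (ℕ × ℕ) (fun _ => Option (List (ℕ × ℕ) × ℕ)) (some ([], p))
          (fun x xs _ => @Bool.rec (fun _ => Option (List (ℕ × ℕ) × ℕ)) none
            (@Bool.rec (fun _ => Option (List (ℕ × ℕ) × ℕ)) none (some (xs, x.2))
              (Nat.ble x.1 x.2)) (Nat.ble p x.1)) M) s) S)
    (fun _ ih S => @Option.rec (List (ℕ × ℕ) × ℕ) (fun _ => Option (List (ℕ × ℕ) × ℕ)) none
      (fun s => ih (some s)) (ih S)) k

/-- The final test of a state: nothing is left. -/
def fin : Option (List (ℕ × ℕ) × ℕ) → Bool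
  | none => false
  | some s => s.1.isEmpty

/-- The test for the differences. -/
noncomputable def chkD (k m : ℕ) (L : List (ℕ × ℕ)) : Bool :=
  tk k L (fun M r => @Bool.rec (fun _ => Bool) false r.isEmpty (fin (step (k + k) (some (M, m)))))

/-- The test for single blocks. -/
def chkP (N m : ℕ) : List (ℕ × ℕ) → Bool
  | [] => true
  | c :: l => Nat.ble (c.2 - c.1) m && prodOk N (c.2 - c.1) c.2 c.2 && chkP N m l

theorem brec_true {x y : Bool} (h : @Bool.rec (fun _ => Bool) false x y = true) :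
    y = true ∧ x = true := by
  cases y
  · exact absurd h (by simp)
  · exact ⟨rfl, h⟩

theorem chkP_spec {N m : ℕ} {L : List (ℕ × ℕ)} (h : chkP N m L = true) :
    ∀ c ∈ L, c.2 - c.1 ≤ m ∧ prodOk N (c.2 - c.1) c.2 c.2 = true := by
  induction L with
  | nil => simp
  | cons c l ih =>
    simp only [chkP, Bool.and_eq_true] at h
    intro b hb
    rcases List.mem_cons.1 hb with hb | hb
    · rw [hb]; exact ⟨Nat.le_of_ble_eq_true h.1.1, h.1.2⟩
    · exact ih h.2 b hb

theorem row_eq (a : ℕ × ℕ) (l : List (ℕ × ℕ)) : row a l = l.map (dif a) := by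
  induction l with
  | nil => rfl
  | cons b l ih =>
    have : row a (b :: l) = dif a b :: row a l := rfl
    rw [this, ih]; rfl

theorem merge_perm : ∀ l₁ l₂ : List (ℕ × ℕ), (merge l₁ l₂).Perm (l₁ ++ l₂) := by
  intro l₁
  induction l₁ with
  | nil => intro l₂; exact List.Perm.refl _
  | cons x xs ihx =>
    intro l₂
    induction l₂ with
    | nil =>
      have : merge (x :: xs) [] = x :: xs := rfl
      rw [this, List.append_nil]
    | cons y ys ihy =>
      have h : merge (x :: xs) (y :: ys) = @Bool.rec (fun _ => List (ℕ × ℕ))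
          (y :: merge (x :: xs) ys) (x :: merge xs (y :: ys)) (Nat.ble x.1 y.1) := rfl
      rw [h]
      cases Nat.ble x.1 y.1
      · exact (ihy.cons y).trans List.perm_middle.symm
      · exact (ihx (y :: ys)).cons x

/-- The list of all ranges of differences. -/
def diffs : List (ℕ × ℕ) → List (ℕ × ℕ)
  | [] => []
  | a :: l => l.map (dif a) ++ diffs l

/-- The function behind `tk`. -/
noncomputable def tf : ℕ → List (ℕ × ℕ) → List (ℕ × ℕ) × List (ℕ × ℕ)
  | 0, [] => ([], [])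
  | 0, a :: l => (row a l, l)
  | k + 1, L => (merge (tf k L).1 (tf k (tf k L).2).1, (tf k (tf k L).2).2)

theorem tk_eq : ∀ (k : ℕ) (L : List (ℕ × ℕ)) (f : List (ℕ × ℕ) → List (ℕ × ℕ) → Bool),
    tk k L f = f (tf k L).1 (tf k L).2 := by
  intro k
  induction k with
  | zero => intro L f; cases L <;> rfl
  | succ k ih =>
    intro L f
    have h : tk (k + 1) L f = tk k L (fun m₁ r₁ => tk k r₁ (fun m₂ r₂ => f (merge m₁ m₂) r₂)) :=
      rfl
    rw [h, ih, ih]
    rfl

theorem tf_perm : ∀ (k : ℕ) (L : List (ℕ × ℕ)),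
    ((tf k L).1 ++ diffs (tf k L).2).Perm (diffs L) := by
  intro k
  induction k with
  | zero =>
    intro L
    cases L with
    | nil => exact List.Perm.refl _
    | cons a l =>
      have h : tf 0 (a :: l) = (row a l, l) := rfl
      rw [h, row_eq]
      exact List.Perm.refl _
  | succ k ih =>
    intro L
    have h : tf (k + 1) L =
      (merge (tf k L).1 (tf k (tf k L).2).1, (tf k (tf k L).2).2) := rfl
    rw [h]
    refine ((merge_perm _ _).append_right _).trans ?_
    rw [List.append_assoc]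
    exact ((ih (tf k L).2).append_left _).trans (ih L)

theorem step_none : ∀ k : ℕ, step k none = none := by
  intro k
  induction k with
  | zero => rfl
  | succ k ih =>
    have h : step (k + 1) none = @Option.rec (List (ℕ × ℕ) × ℕ)
      (fun _ => Option (List (ℕ × ℕ) × ℕ)) none (fun s => step k (some s)) (step k none) := rfl
    rw [h, ih]

theorem step_succ (k : ℕ) (S : Option (List (ℕ × ℕ) × ℕ)) :
    step (k + 1) S = step k (step k S) := by
  have h : step (k + 1) S = @Option.rec (List (ℕ × ℕ) × ℕ)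
      (fun _ => Option (List (ℕ × ℕ) × ℕ)) none (fun s => step k (some s)) (step k S) := rfl
  rw [h]
  cases step k S with
  | none => rw [step_none]
  | some s => rfl

theorem step_spec : ∀ (k : ℕ) (M : List (ℕ × ℕ)) (p : ℕ) (M' : List (ℕ × ℕ)) (p' : ℕ),
    step k (some (M, p)) = some (M', p') →
    ∃ pre, M = pre ++ M' ∧ pre.Pairwise (fun x y => x.2 ≤ y.1) ∧
      (∀ x ∈ pre, p ≤ x.1 ∧ x.1 ≤ x.2 ∧ x.2 ≤ p') ∧ p ≤ p' := by
  intro k
  induction k with
  | zero =>
    intro M p M' p' h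
    cases M with
    | nil =>
      have h' : some (([] : List (ℕ × ℕ)), p) = some (M', p') := h
      simp only [Option.some.injEq, Prod.mk.injEq] at h'
      exact ⟨[], by rw [← h'.1]; rfl, List.Pairwise.nil, by simp, h'.2.le⟩
    | cons x xs =>
      have h' : @Bool.rec (fun _ => Option (List (ℕ × ℕ) × ℕ)) none
            (@Bool.rec (fun _ => Option (List (ℕ × ℕ) × ℕ)) none (some (xs, x.2))
              (Nat.ble x.1 x.2)) (Nat.ble p x.1) = some (M', p') := h
      cases h1 : Nat.ble p x.1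
      · rw [h1] at h'
        exact absurd h' (by simp)
      · rw [h1] at h'
        cases h2 : Nat.ble x.1 x.2
        · rw [h2] at h'
          exact absurd h' (by simp)
        · rw [h2] at h'
          simp only [Option.some.injEq, Prod.mk.injEq] at h'
          have h1 := Nat.le_of_ble_eq_true h1
          have h2 := Nat.le_of_ble_eq_true h2
          refine ⟨[x], by rw [← h'.1]; rfl, List.pairwise_singleton _ _, ?_, by omega⟩
          intro y hy
          rw [List.mem_singleton.1 hy]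
          exact ⟨h1, h2, h'.2.le⟩
  | succ k ih =>
    intro M p M' p' h
    rw [step_succ] at h
    cases h1 : step k (some (M, p)) with
    | none =>
      rw [h1, step_none] at h
      exact absurd h (by simp)
    | some s =>
      obtain ⟨M₁, p₁⟩ := s
      rw [h1] at h
      obtain ⟨a1, a2, a3, a4, a5⟩ := ih _ _ _ _ h1
      obtain ⟨b1, b2, b3, b4, b5⟩ := ih _ _ _ _ h
      refine ⟨a1 ++ b1, by rw [a2, b2, List.append_assoc], ?_, ?_, by omega⟩
      · refine List.pairwise_append.2 ⟨a3, b3, ?_⟩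
        intro x hx y hy
        have := (a4 x hx).2.2
        have := (b4 y hy).1
        omega
      · intro x hx
        rcases List.mem_append.1 hx with hx | hx
        · have := a4 x hx
          omega
        · have := b4 x hx
          omega

theorem chain_spec {k p : ℕ} {M : List (ℕ × ℕ)} (h : fin (step k (some (M, p))) = true) :
    M.Pairwise (fun x y => x.2 ≤ y.1) ∧ ∀ x ∈ M, p ≤ x.1 ∧ x.1 ≤ x.2 := by
  cases h1 : step k (some (M, p)) with
  | none =>
    rw [h1] at h
    exact absurd h (by simp [fin])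
  | some s =>
    obtain ⟨M', p'⟩ := s
    rw [h1] at h
    have h2 : M' = [] := List.isEmpty_iff.1 h
    obtain ⟨a1, a2, a3, a4, a5⟩ := step_spec _ _ _ _ _ h1
    rw [h2, List.append_nil] at a2
    rw [a2]
    exact ⟨a3, fun x hx => ⟨(a4 x hx).1, (a4 x hx).2.1⟩⟩

/-- Two ranges do not overlap. -/
def Dj (x y : ℕ × ℕ) : Prop := x.2 ≤ y.1 ∨ y.2 ≤ x.1

theorem chkD_spec {k m : ℕ} {L : List (ℕ × ℕ)} (h : chkD k m L = true) :
    (diffs L).Pairwise Dj ∧ ∀ x ∈ diffs L, m ≤ x.1 := by
  unfold chkD at h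
  rw [tk_eq] at h
  obtain ⟨h1, h2⟩ := brec_true h
  have h3 : (tf k L).2 = [] := List.isEmpty_iff.1 h2
  have h4 := tf_perm k L
  rw [h3] at h4
  have h5 : (tf k L).1.Perm (diffs L) := by
    have : (tf k L).1 ++ diffs [] = (tf k L).1 := List.append_nil _
    rwa [this] at h4
  obtain ⟨h6, h7⟩ := chain_spec h1
  constructor
  · have hs : ∀ {x y : ℕ × ℕ}, Dj x y → Dj y x := fun h => h.symm
    refine (h5.pairwise_iff hs).1 ?_
    exact h6.imp (fun h => Or.inl h)
  · intro x hx
    exact (h7 x (h5.mem_iff.2 hx)).1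

/-- `b` comes after `a` in the list `L`: consequences of the test. -/
theorem diffs_mem {L : List (ℕ × ℕ)} (hL : Sorted L) {a b : ℕ × ℕ} (ha : a ∈ L) (hb : b ∈ L)
    (hab : b ≠ a) (hn : ¬ b.2 ≤ a.1) : dif a b ∈ diffs L := by
  induction L with
  | nil => simp at ha
  | cons c l ih =>
    have hd : diffs (c :: l) = l.map (dif c) ++ diffs l := rfl
    rw [hd]
    rcases List.mem_cons.1 ha with ha' | ha'
    · rcases List.mem_cons.1 hb with hb' | hb'
      · exact absurd (hb'.trans ha'.symm) hab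
      · rw [ha']
        exact List.mem_append_left _ (List.mem_map_of_mem hb')
    · rcases List.mem_cons.1 hb with hb' | hb'
      · rw [hb'] at hn
        exact absurd (hL.head a ha') hn
      · exact List.mem_append_right _ (ih hL.tail ha' hb')

theorem diffs_disj {L : List (ℕ × ℕ)} (hL : Sorted L) (h : (diffs L).Pairwise Dj)
    {a b c d : ℕ × ℕ} (ha : a ∈ L) (hb : b ∈ L) (hc : c ∈ L) (hd : d ∈ L)
    (hab : b ≠ a) (hab' : ¬ b.2 ≤ a.1) (hcd : d ≠ c) (hcd' : ¬ d.2 ≤ c.1)
    (hac : c ≠ a) (hac' : ¬ c.2 ≤ a.1) : Dj (dif a b) (dif c d) := by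
  induction L with
  | nil => simp at ha
  | cons e l ih =>
    have hd0 : diffs (e :: l) = l.map (dif e) ++ diffs l := rfl
    rw [hd0] at h
    obtain ⟨h1, h2, h3⟩ := List.pairwise_append.1 h
    have tailof : ∀ {x : ℕ × ℕ}, x ∈ e :: l → x ≠ a → ¬ x.2 ≤ a.1 → a ∈ e :: l → x ∈ l := by
      intro x hx hxa hxa' ha0
      rcases List.mem_cons.1 hx with hx' | hx'
      · rcases List.mem_cons.1 ha0 with ha' | ha'
        · exact absurd (hx'.trans ha'.symm) hxa
        · rw [hx'] at hxa'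
          exact absurd (hL.head a ha') hxa'
      · exact hx'
    have hcl : c ∈ l := tailof hc hac hac' ha
    have hbl : b ∈ l := tailof hb hab hab' ha
    have hdl : d ∈ l := by
      rcases List.mem_cons.1 hd with hd' | hd'
      · rw [hd'] at hcd'
        exact absurd (hL.head c hcl) hcd'
      · exact hd'
    rcases List.mem_cons.1 ha with ha' | ha'
    · rw [ha']
      exact h3 _ (List.mem_map_of_mem hbl) _ (diffs_mem hL.tail hcl hdl hcd hcd')
    · exact ih hL.tail h2 ha' hbl hcl hdl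

/-- If `x ≤ y`, `x` in block `a` and `y` in block `b`, then `b` does not lie before `a`. -/
theorem after {q : ℕ} {a b : ℕ × ℕ}
    {x y : ℤ} (hx : x ∈ blk q a) (hy : y ∈ blk q b) (hxy : x ≤ y) : ¬ b.2 ≤ a.1 := by
  intro h
  simp only [blk, Finset.mem_Ioc] at hx hy
  have h2 : b.2 * q ≤ a.1 * q := Nat.mul_le_mul_right q h
  have h3 : ((b.2 * q : ℕ) : ℤ) ≤ ((a.1 * q : ℕ) : ℤ) := by exact_mod_cast h2
  omega

/-- Real form of the product test. -/
theorem prodOk_spec {N H1 H2 D q : ℕ} {h₁ h₂ : ℤ} (h : prodOk N H1 H2 D = true)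
    (p1 : 0 ≤ h₁) (p2 : 0 ≤ h₂) (l1 : h₁ ≤ (H1 : ℤ) * q) (l2 : h₂ ≤ (H2 : ℤ) * q)
    (l3 : h₁ + h₂ ≤ (D : ℤ) * q) : h₁ * h₂ ≤ (N : ℤ) * q ^ 2 := by
  simp only [prodOk, Bool.or_eq_true, Bool.and_eq_true] at h
  rcases h with (h | h) | ⟨h, h'⟩
  · have h := Nat.le_of_ble_eq_true h
    have h : (H1 : ℤ) * H2 ≤ N := by exact_mod_cast h
    have e1 : h₁ * h₂ ≤ ((H1 : ℤ) * q) * ((H2 : ℤ) * q) :=
      mul_le_mul l1 l2 p2 (by positivity)
    have e2 : ((H1 : ℤ) * H2) * (q : ℤ) ^ 2 ≤ N * (q : ℤ) ^ 2 :=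
      mul_le_mul_of_nonneg_right h (by positivity)
    nlinarith [e1, e2]
  · have h := Nat.le_of_ble_eq_true h
    have h : (D : ℤ) * D ≤ 4 * N := by exact_mod_cast h
    have e1 : (h₁ + h₂) * (h₁ + h₂) ≤ ((D : ℤ) * q) * ((D : ℤ) * q) :=
      mul_le_mul l3 l3 (by positivity) (by positivity)
    have e2 : ((D : ℤ) * D) * (q : ℤ) ^ 2 ≤ (4 * N) * (q : ℤ) ^ 2 :=
      mul_le_mul_of_nonneg_right h (by positivity)
    nlinarith [e1, e2, sq_nonneg (h₁ - h₂)]
  · have h := Nat.le_of_ble_eq_true h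
    have h' := Nat.le_of_ble_eq_true h'
    have hle : H1 ≤ D := by omega
    have h2 : (2 : ℤ) * H1 ≤ D := by exact_mod_cast h
    have h3 : (H1 : ℤ) * ((D : ℤ) - H1) ≤ N := by
      have : (((D - H1 : ℕ)) : ℤ) = (D : ℤ) - H1 := by push_cast [Nat.cast_sub hle]; ring
      rw [← this]; exact_mod_cast h'
    have e0 : h₁ * h₂ ≤ h₁ * ((D : ℤ) * q - h₁) := mul_le_mul_of_nonneg_left (by linarith) p1
    have e1 : h₁ * ((D : ℤ) * q - h₁) ≤ ((H1 : ℤ) * q) * ((D : ℤ) * q - H1 * q) := by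
      have f1 : 0 ≤ (H1 : ℤ) * q - h₁ := by linarith
      have f2 : 0 ≤ (D : ℤ) * q - H1 * q - h₁ := by
        have : (2 : ℤ) * H1 * q ≤ D * q := mul_le_mul_of_nonneg_right h2 (by positivity)
        linarith
      nlinarith [mul_nonneg f1 f2]
    have e2 : ((H1 : ℤ) * ((D : ℤ) - H1)) * (q : ℤ) ^ 2 ≤ N * (q : ℤ) ^ 2 :=
      mul_le_mul_of_nonneg_right h3 (by positivity)
    nlinarith [e0, e1, e2]

/-- Distances between points of two blocks. -/
theorem dist_le {q : ℕ} {a b : ℕ × ℕ} {x y : ℤ} (hx : x ∈ blk q a) (hy : y ∈ blk q b)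
    (hxy : x ≤ y) : y - x ≤ ((b.2 - a.1 : ℕ) : ℤ) * q := by
  simp only [blk, Finset.mem_Ioc] at hx hy
  push_cast at hx hy
  by_cases h : a.1 ≤ b.2
  · rw [Nat.cast_sub h]; nlinarith [hx.1, hy.2]
  · rw [not_le] at h
    exfalso
    have h2 : b.2 * q ≤ a.1 * q := Nat.mul_le_mul_right q h.le
    have h3 : (b.2 : ℤ) * q ≤ (a.1 : ℤ) * q := by exact_mod_cast h2
    linarith [hx.1, hy.2]

theorem dist_lt {q : ℕ} {a b : ℕ × ℕ} {x y : ℤ} (hx : x ∈ blk q a) (hy : y ∈ blk q b)
    (hxy : x ≤ y) : y - x < ((b.2 - a.1 : ℕ) : ℤ) * q := by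
  simp only [blk, Finset.mem_Ioc] at hx hy
  push_cast at hx hy
  by_cases h : a.1 ≤ b.2
  · rw [Nat.cast_sub h]; nlinarith [hx.1, hy.2]
  · rw [not_le] at h
    exfalso
    have h2 : b.2 * q ≤ a.1 * q := Nat.mul_le_mul_right q h.le
    have h3 : (b.2 : ℤ) * q ≤ (a.1 : ℤ) * q := by exact_mod_cast h2
    linarith [hx.1, hy.2]

theorem le_dist {q : ℕ} {a b : ℕ × ℕ} {x y : ℤ} (hx : x ∈ blk q a) (hy : y ∈ blk q b)
    (hxy : x ≤ y) : ((b.1 - a.2 : ℕ) : ℤ) * q ≤ y - x := by
  simp only [blk, Finset.mem_Ioc] at hx hy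
  push_cast at hx hy
  by_cases h : a.2 ≤ b.1
  · rw [Nat.cast_sub h]; nlinarith [hx.2, hy.1]
  · rw [not_le] at h
    rw [Nat.sub_eq_zero_of_le h.le]
    simp; exact hxy

theorem nflat_blowup {N q k m : ℕ} {L : List (ℕ × ℕ)} (hL : Sorted L)
    (hD : chkD k m L = true) (hP : chkP N m L = true) :
    NFlat (N * q ^ 2) (blowup q L) := by
  obtain ⟨D1, D2⟩ := chkD_spec hD
  have P := chkP_spec hP
  apply nflat_of_ordered
  intro x h₁ h₂ p1 p2 hx hy hz hw
  obtain ⟨a, ha, hxa⟩ := mem_blowup.1 hx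
  obtain ⟨b, hb, hyb⟩ := mem_blowup.1 hy
  obtain ⟨c, hc, hzc⟩ := mem_blowup.1 hz
  obtain ⟨d, hd, hwd⟩ := mem_blowup.1 hw
  have o1 : x ≤ x + h₁ := by linarith
  have o2 : x + h₁ ≤ x + h₂ := by linarith
  have o3 : x + h₂ ≤ x + h₁ + h₂ := by linarith
  have o5 : x ≤ x + h₂ := by linarith
  have o6 : x ≤ x + h₁ + h₂ := by linarith
  -- a difference inside one block is smaller than `m q`, between two blocks at least `m q`
  have small : ∀ {u v : ℤ} {e : ℕ × ℕ}, e ∈ L → u ∈ blk q e → v ∈ blk q e → u ≤ v →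
      v - u < (m : ℤ) * q := by
    intro u v e he hu hv huv
    have e1 := dist_lt hu hv huv
    have e2 : (((e.2 - e.1 : ℕ)) : ℤ) * q ≤ (m : ℤ) * q := by
      have := Nat.mul_le_mul_right q (P e he).1
      exact_mod_cast this
    linarith
  have big : ∀ {u v : ℤ} {e f : ℕ × ℕ}, e ∈ L → f ∈ L → f ≠ e → u ∈ blk q e → v ∈ blk q f →
      u ≤ v → (m : ℤ) * q ≤ v - u := by
    intro u v e f he hf hef hu hv huv
    have e1 := le_dist hu hv huv
    have e2 := D2 _ (diffs_mem hL he hf hef (after hu hv huv))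
    have e3 : (m : ℤ) * q ≤ ((f.1 - e.2 : ℕ) : ℤ) * q := by
      have := Nat.mul_le_mul_right q e2
      exact_mod_cast this
    linarith
  have e0 : (x + h₁) - x = (x + h₁ + h₂) - (x + h₂) := by ring
  push_cast
  by_cases hab : b = a
  · by_cases hcd : d = c
    · -- both differences inside blocks
      rw [hcd] at hwd
      have q1 := (P c hc).2
      have d1 : h₁ ≤ ((c.2 - c.1 : ℕ) : ℤ) * q := by
        have := dist_lt hzc hwd o3
        linarith
      have d0 : x + h₁ + h₂ ≤ (c.2 : ℤ) * q := by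
        have := hwd
        simp only [blk, Finset.mem_Ioc] at this
        push_cast at this
        exact this.2
      have d00 : 0 ≤ x := by
        have := hxa
        simp only [blk, Finset.mem_Ioc] at this
        have h0 : (0 : ℤ) ≤ ((a.1 * q : ℕ) : ℤ) := by positivity
        linarith [this.1]
      exact prodOk_spec q1 p1 (by linarith) d1 (by linarith) (by linarith)
    · exfalso
      rw [hab] at hyb
      have s1 := small ha hxa hyb o1
      have s2 := big hc hd hcd hzc hwd o3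
      linarith
  · by_cases hcd : d = c
    · exfalso
      rw [hcd] at hwd
      have s1 := small hc hzc hwd o3
      have s2 := big ha hb hab hxa hyb o1
      linarith
    · exfalso
      have hac : c ≠ a := by
        intro hca
        -- then `x ≤ x + h₁ ≤ x + h₂` with the outer two in the same block
        rw [hca] at hzc
        have s1 := small ha hxa hzc o5
        have s2 := big ha hb hab hxa hyb o1
        linarith
      have dj := diffs_disj hL D1 ha hb hc hd hab (after hxa hyb o1) hcd (after hzc hwd o3)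
        hac (after hxa hzc o5)
      rcases dj with dj | dj
      · have t1 := dist_lt hxa hyb o1
        have t2 := le_dist hzc hwd o3
        have t3 : ((b.2 - a.1 : ℕ) : ℤ) * q ≤ ((d.1 - c.2 : ℕ) : ℤ) * q := by
          have := Nat.mul_le_mul_right q dj
          exact_mod_cast this
        linarith
      · have t1 := dist_lt hzc hwd o3
        have t2 := le_dist hxa hyb o1
        have t3 : ((d.2 - c.1 : ℕ) : ℤ) * q ≤ ((b.1 - a.2 : ℕ) : ℤ) * q := by
          have := Nat.mul_le_mul_right q dj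
          exact_mod_cast this
        linarith

/-- Membership bounds. -/
theorem blowup_subset {q M : ℕ} {L : List (ℕ × ℕ)} (hM : ∀ b ∈ L, b.2 ≤ M) :
    blowup q L ⊆ Finset.Icc (1 : ℤ) ((M * q : ℕ) : ℤ) := by
  intro x hx
  obtain ⟨b, hb, hxb⟩ := mem_blowup.1 hx
  simp only [blk, Finset.mem_Ioc] at hxb
  rw [Finset.mem_Icc]
  have h2 : b.2 * q ≤ M * q := Nat.mul_le_mul_right q (hM b hb)
  have h3 : ((b.2 * q : ℕ) : ℤ) ≤ ((M * q : ℕ) : ℤ) := by exact_mod_cast h2
  constructor
  · have : (0 : ℤ) ≤ ((b.1 * q : ℕ) : ℤ) := by positivity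
    omega
  · omega

theorem NFlat.mono {M N : ℕ} {A : Finset ℤ} (h : NFlat M A) (hMN : M ≤ N) : NFlat N A := by
  intro x h₁ h₂ a b c d
  have := h x h₁ h₂ a b c d
  have h2 : (M : ℤ) ≤ N := by exact_mod_cast hMN
  linarith

end Pool.Agent.NFlat82
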